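import Mathlib
import Pool.Agent.H.MP_8d2225_pr.Disc

namespace Pool.Agent.H.MP_ee50b4_pr

open Finset Matrix Filter Topology Pool.Agent.H.MP_8d2225_pr

section bias
variable {G : Type} [AddCommGroup G] [Fintype G] [DecidableEq G]

open Classical in
noncomputable def pot (A : AddChar G ℂ → ℝ) : ℝ :=
  ∑ χ ∈ univ.erase (0 : AddChar G ℂ), (Real.exp (A χ / 8) + Real.exp (-A χ / 8))

omit [DecidableEq G] in
lemma re_sum {χ : AddChar G ℂ} (h : χ ≠ 0) : ∑ x, (χ x).re = 0 := by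
  classical
  rw [← Complex.re_sum, AddChar.sum_eq_ite, if_neg h, Complex.zero_re]

omit [DecidableEq G] in
lemma re_abs (χ : AddChar G ℂ) (x : G) : |(χ x).re| ≤ 1 :=
  (Complex.abs_re_le_norm _).trans (by simp [AddChar.norm_apply])

lemma exp_q {c : ℝ} (h : |c| ≤ 1) : Real.exp (c / 4) ≤ 17 / 16 + c / 4 := by
  have h1 : |c / 4| ≤ 1 := by rw [abs_div]; norm_num; linarith
  have := (abs_le.1 (Real.abs_exp_sub_one_sub_id_le h1)).2
  have h2 := abs_le.1 h
  nlinarith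

omit [DecidableEq G] in
lemma avg (A : AddChar G ℂ → ℝ) :
    ∑ x, pot (fun χ => A χ + 2 * (χ x).re) ≤ (Fintype.card G : ℝ) * (17 / 16 * pot A) := by
  classical
  unfold pot
  rw [sum_comm, mul_sum, mul_sum]
  refine sum_le_sum fun χ hχ => ?_
  have h0 := re_sum (ne_of_mem_erase hχ)
  calc ∑ x, (Real.exp ((A χ + 2 * (χ x).re) / 8) + Real.exp (-(A χ + 2 * (χ x).re) / 8))
      ≤ ∑ x, (Real.exp (A χ / 8) * (17 / 16 + (χ x).re / 4) +
          Real.exp (-A χ / 8) * (17 / 16 + (-(χ x).re) / 4)) := by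
        refine sum_le_sum fun x _ => add_le_add ?_ ?_
        · rw [show (A χ + 2 * (χ x).re) / 8 = A χ / 8 + (χ x).re / 4 by ring, Real.exp_add]
          exact mul_le_mul_of_nonneg_left (exp_q (re_abs χ x)) (Real.exp_pos _).le
        · rw [show -(A χ + 2 * (χ x).re) / 8 = -A χ / 8 + (-(χ x).re) / 4 by ring, Real.exp_add]
          exact mul_le_mul_of_nonneg_left (exp_q (by rw [abs_neg]; exact re_abs χ x))
            (Real.exp_pos _).le
    _ = _ := by
        simp only [sum_add_distrib, ← mul_sum, ← sum_div, sum_neg_distrib, h0, sum_const, card_univ,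
          nsmul_eq_mul]
        ring

omit [DecidableEq G] in
lemma pot_nonneg (A : AddChar G ℂ → ℝ) : 0 ≤ pot A := sum_nonneg fun _ _ => by positivity

lemma grow (hodd : ∀ x : G, x + x = 0 → x = 0) (i : ℕ)
    (hi : 100 * (2 * (i : ℝ) + 1) ≤ Fintype.card G) :
    ∃ S : Finset G, (∀ x ∈ S, -x ∈ S) ∧ 0 ∉ S ∧ S.card = 2 * i ∧
      pot (fun χ => ∑ x ∈ S, (χ x).re) ≤ 2 * (Fintype.card G : ℝ) * (100 / 99 * (17 / 16)) ^ i := by
  induction i with
  | zero =>
    classical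
    refine ⟨∅, by simp, by simp, by simp, ?_⟩
    simp only [pot, sum_empty, zero_div, neg_zero, Real.exp_zero, sum_const, nsmul_eq_mul, pow_zero]
    have : (#(univ.erase (0 : AddChar G ℂ)) : ℝ) ≤ Fintype.card G := by
      have := card_erase_le (s := (univ : Finset (AddChar G ℂ))) (a := 0)
      rw [card_univ, AddChar.card_eq] at this
      exact_mod_cast this
    linarith
  | succ i ih =>
    push_cast at hi
    obtain ⟨S, h1, h2, h3, h4⟩ := ih (by linarith)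
    set A : AddChar G ℂ → ℝ := fun χ => ∑ x ∈ S, (χ x).re with hA
    have hB : (99 / 100 * Fintype.card G : ℝ) ≤ #(insert 0 S)ᶜ := by
      rw [card_compl, card_insert_of_notMem h2, h3, Nat.cast_sub]
      · push_cast; linarith
      · have : ((2 * i + 1 : ℕ) : ℝ) ≤ Fintype.card G := by push_cast; linarith
        exact_mod_cast this
    have hg : (0 : ℝ) < Fintype.card G := by exact_mod_cast Fintype.card_pos
    have hne : ((insert 0 S)ᶜ).Nonempty := by
      rw [← card_pos]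
      have : (0 : ℝ) < #(insert 0 S)ᶜ := by linarith
      exact_mod_cast this
    have hp := pot_nonneg A
    obtain ⟨x, hx, hx'⟩ := exists_le_of_sum_le (f := fun x => pot (fun χ => A χ + 2 * (χ x).re))
      (g := fun _ => 100 / 99 * (17 / 16) * pot A) hne (by
        refine (sum_le_univ_sum_of_nonneg fun x => pot_nonneg _).trans ((avg A).trans ?_)
        rw [sum_const, nsmul_eq_mul]
        nlinarith)
    rw [mem_compl, mem_insert, not_or] at hx
    have n1 : -x ∉ S := fun h => hx.2 (by simpa using h1 _ h)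
    have n2 : x ∉ insert (-x) S := by
      rw [mem_insert, not_or]
      exact ⟨fun h => hx.1 (hodd x (by nth_rewrite 2 [h]; simp)), hx.2⟩
    refine ⟨insert x (insert (-x) S), ?_, ?_, ?_, ?_⟩
    · intro y hy
      simp only [mem_insert] at hy ⊢
      rcases hy with rfl | rfl | hy
      · simp
      · simp
      · exact Or.inr (Or.inr (h1 _ hy))
    · simp only [mem_insert, not_or]
      exact ⟨Ne.symm hx.1, fun h => hx.1 (by simpa using h), h2⟩
    · rw [card_insert_of_notMem n2, card_insert_of_notMem n1, h3]; ring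
    · have e : (fun χ : AddChar G ℂ => ∑ y ∈ insert x (insert (-x) S), (χ y).re) =
          fun χ => A χ + 2 * (χ x).re := by
        funext χ
        rw [sum_insert n2, sum_insert n1, AddChar.map_neg_eq_conj, Complex.conj_re]
        ring
      rw [e, pow_succ]
      nlinarith

lemma bias (hodd : ∀ x : G, x + x = 0 → x = 0) (i : ℕ)
    (hi : 100 * (2 * (i : ℝ) + 1) ≤ Fintype.card G)
    (hi' : 2 * (Fintype.card G : ℝ) ≤ (26 / 25) ^ i) :
    ∃ S : Finset G, (∀ x ∈ S, -x ∈ S) ∧ S.card = 2 * i ∧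
      ∀ χ : AddChar G ℂ, χ ≠ 0 → ‖∑ x ∈ S, χ (-x)‖ ≤ (S.card : ℝ) / 2 := by
  classical
  obtain ⟨S, h1, -, h3, h4⟩ := grow hodd i hi
  refine ⟨S, h1, h3, fun χ hχ => ?_⟩
  have e1 : ∑ x ∈ S, χ (-x) = ∑ x ∈ S, χ x :=
    sum_bij (fun x _ => -x) h1 (fun a _ b _ h => neg_injective h)
      (fun b hb => ⟨-b, h1 b hb, neg_neg b⟩) fun _ _ => rfl
  have e2 : ∑ x ∈ S, χ x = ((∑ x ∈ S, (χ x).re : ℝ) : ℂ) := by
    rw [← Complex.re_sum]
    refine (Complex.conj_eq_iff_re.1 ?_).symm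
    rw [map_sum, ← e1]
    exact sum_congr rfl fun x _ => (AddChar.map_neg_eq_conj χ x).symm
  rw [e1, e2, Complex.norm_real, Real.norm_eq_abs, h3]
  set a := ∑ x ∈ S, (χ x).re
  have h5 : Real.exp (a / 8) + Real.exp (-a / 8) ≤ pot (fun χ => ∑ x ∈ S, (χ x).re) :=
    single_le_sum (f := fun χ : AddChar G ℂ => Real.exp ((∑ x ∈ S, (χ x).re) / 8) +
      Real.exp (-(∑ x ∈ S, (χ x).re) / 8)) (fun _ _ => by positivity)
      (mem_erase.2 ⟨hχ, mem_univ _⟩)
  have h6 : 2 * (Fintype.card G : ℝ) * (100 / 99 * (17 / 16)) ^ i ≤ Real.exp (i / 8) := by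
    calc 2 * (Fintype.card G : ℝ) * (100 / 99 * (17 / 16)) ^ i
        ≤ (26 / 25) ^ i * (100 / 99 * (17 / 16)) ^ i := by gcongr
      _ ≤ Real.exp (1 / 8) ^ i := by
        rw [← mul_pow]
        gcongr
        linarith [Real.add_one_le_exp (1 / 8)]
      _ = _ := by rw [← Real.exp_nat_mul]; ring_nf
  have p1 := Real.exp_pos (a / 8)
  have p2 := Real.exp_pos (-a / 8)
  have q1 : a / 8 ≤ i / 8 := Real.exp_le_exp.1 (by linarith)
  have q2 : -a / 8 ≤ i / 8 := Real.exp_le_exp.1 (by linarith)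
  rw [abs_le]; push_cast
  constructor <;> linarith

end bias

section prod
variable {G H : Type} [AddCommGroup G] [Fintype G] [DecidableEq G] [AddCommGroup H] [Fintype H]
  [DecidableEq H] (S0 : Finset G)

lemma char_bound {c : ℝ}
    (hc : ∀ χ : AddChar G ℂ, χ ≠ 0 → ‖∑ x ∈ S0, χ (-x)‖ ≤ (S0.card : ℝ) / 2)
    (hb1 : (S0.card : ℝ) + (Fintype.card G : ℝ) ≤ c)
    (hb2 : (S0.card : ℝ) / 2 * ((Fintype.card H : ℝ) - 1) + 1 ≤ c)
    (ψ : AddChar (G × H) ℂ) (hψ : ψ ≠ 0) : ‖∑ z ∈ SS H S0, ψ (-z)‖ ≤ c := by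
  set χ : AddChar G ℂ := ψ.compAddMonoidHom (AddMonoidHom.inl G H) with hχ
  set φ : AddChar H ℂ := ψ.compAddMonoidHom (AddMonoidHom.inr G H) with hφ
  have hsp : ∀ z : G × H, ψ z = χ z.1 * φ z.2 := fun z => by
    simp [hχ, hφ, ← AddChar.map_add_eq_mul]
  have hS := sum_SS (H := H) S0 (fun x => χ (-x)) fun y => φ (-y)
  have n1 : ∑ x, χ (-x) = ∑ x, χ x := Equiv.sum_comp (Equiv.neg G) χ
  have n2 : ∑ x, φ (-x) = ∑ x, φ x := Equiv.sum_comp (Equiv.neg H) φ
  simp only [n1, n2, AddChar.sum_eq_ite, neg_zero, AddChar.map_zero_eq_one, mul_one] at hS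
  have hS' : ∑ z ∈ SS H S0, ψ (-z) = ∑ z ∈ SS H S0, χ (-z.1) * φ (-z.2) :=
    sum_congr rfl fun z _ => hsp _
  rw [hS', hS]
  have hg1 : (1 : ℝ) ≤ (Fintype.card G : ℝ) := by exact_mod_cast Fintype.card_pos
  have hh1 : (1 : ℝ) ≤ (Fintype.card H : ℝ) := by exact_mod_cast Fintype.card_pos
  by_cases a : φ = 0
  · by_cases b : χ = 0
    · exfalso
      apply hψ
      ext z; rw [hsp, a, b]; simp
    · rw [if_pos a, if_neg b]
      refine (norm_add_le _ _).trans ?_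
      rw [norm_mul, show ((Fintype.card H : ℂ) - 1) = (((Fintype.card H : ℝ) - 1 : ℝ) : ℂ) by
        push_cast; rfl, Complex.norm_real, Real.norm_of_nonneg (by linarith)]
      have := mul_le_mul_of_nonneg_right (hc χ b) (by linarith : 0 ≤ (Fintype.card H : ℝ) - 1)
      simp only [zero_sub, norm_neg, norm_one]
      linarith
  · rw [if_neg a]
    refine (norm_add_le _ _).trans ?_
    have b1 : ‖∑ x ∈ S0, χ (-x)‖ ≤ (Finset.card S0 : ℝ) := by
      refine (norm_sum_le _ _).trans ?_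
      simp [AddChar.norm_apply]
    have b2 : ‖(if χ = 0 then (Fintype.card G : ℂ) else 0) - 1‖ ≤ (Fintype.card G : ℝ) := by
      split_ifs
      · rw [show ((Fintype.card G : ℂ) - 1) = (((Fintype.card G : ℝ) - 1 : ℝ) : ℂ) by push_cast; rfl,
          Complex.norm_real, Real.norm_of_nonneg (by linarith)]
        linarith
      · simpa using hg1
    simp only [zero_sub, mul_neg, mul_one, norm_neg]
    linarith

end prod

structure Nice {Γ : Type} [AddCommGroup Γ] [Fintype Γ] [DecidableEq Γ] (L T : ℕ) (S : Finset Γ) :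
    Prop where
  card : L ≤ Fintype.card Γ
  symm : ∀ x ∈ S, -x ∈ S
  ne : S.Nonempty
  chr : ∀ χ : AddChar Γ ℂ, χ ≠ 0 → ‖∑ x ∈ S, χ x‖ ≤ 3 / 5 * (S.card : ℝ)
  lo : ∀ t ≤ T, (1 - 1 / (9 * L : ℝ)) ^ t - 1 / 100 ≤
    (1 / 2) * ∑ y, |(W 0 S ^ t) 0 y - 1 / (Fintype.card Γ : ℝ)|
  up : ∀ t, (1 / 2) * ∑ y, |(W 0 S ^ t) 0 y - 1 / (Fintype.card Γ : ℝ)| ≤
    (1 - 1 / (11 * L : ℝ)) ^ t + (1 / (9 * L : ℝ)) ^ t

theorem nice_abs {G H : Type} [AddCommGroup G] [Fintype G] [DecidableEq G] [AddCommGroup H]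
    [Fintype H] [DecidableEq H] (S0 : Finset G) (L T : ℕ) (hL : 2 ≤ L)
    (hsym : ∀ x ∈ S0, -x ∈ S0)
    (hχ : ∀ χ : AddChar G ℂ, χ ≠ 0 → ‖∑ x ∈ S0, χ (-x)‖ ≤ (S0.card : ℝ) / 2)
    (g100 : (100 : ℝ) ≤ Fintype.card G) (gL : L ≤ Fintype.card G)
    (sg : (S0.card : ℝ) + 1 ≤ Fintype.card G)
    (hsm : ((S0.card : ℝ) + 1) ^ T / (Fintype.card G : ℝ) ≤ 1 / 100)
    (hh : (S0.card : ℝ) * Fintype.card H = 10 * L * (Fintype.card G - 1)) : Nice L T (SS H S0) := by
  have hσ := card_SS (H := H) S0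
  have hL2 : (2 : ℝ) ≤ L := by exact_mod_cast hL
  have s0 : (0 : ℝ) ≤ S0.card := by positivity
  set g : ℝ := (Fintype.card G : ℝ)
  set σ : ℝ := ((SS H S0).card : ℝ)
  set s : ℝ := (S0.card : ℝ)
  have σ1 : 9 * L * g ≤ σ := by rw [hσ, mul_sub, hh]; nlinarith
  have σ2 : σ ≤ 11 * L * (g - 2) := by rw [hσ, mul_sub, hh]; nlinarith
  have σ18 : 18 * g ≤ σ := by nlinarith
  have σ0 : 0 < σ := by linarith
  have L0 : (0 : ℝ) < L := by linarith
  have c1 : 1 / (11 * L) ≤ 1 / σ * (g - 2) := by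
    rw [div_mul_eq_mul_div, div_le_div_iff₀ (by positivity) σ0]
    nlinarith
  have c2 : 1 / σ * g ≤ 1 / (9 * L) := by
    rw [div_mul_eq_mul_div, div_le_div_iff₀ σ0 (by positivity)]
    nlinarith
  have c3 : (1 : ℝ) / (9 * L) ≤ 1 := by
    rw [div_le_one (by positivity)]; linarith
  have hk : 0 ≤ 1 / σ := by positivity
  have hm : ∀ z : G × H, z ∈ SS H S0 ↔ (z.1 ∈ S0 ∧ z.2 ≠ 0) ∨ (z.1 ≠ 0 ∧ z.2 = 0) := by simp [SS]
  have sy : ∀ x ∈ SS H S0, -x ∈ SS H S0 := by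
    intro x hx
    rw [hm] at hx ⊢
    rcases hx with ⟨a, b⟩ | ⟨a, b⟩
    · exact Or.inl ⟨hsym _ a, by simpa using b⟩
    · exact Or.inr ⟨by simpa using a, by simpa using b⟩
  refine ⟨?_, sy, card_pos.1 (Nat.cast_pos.1 σ0), fun ψ hψ => ?_, fun t ht => ?_, fun t => ?_⟩
  · rw [Fintype.card_prod]
    exact gL.trans (Nat.le_mul_of_pos_right _ Fintype.card_pos)
  · have e1 : ∑ x ∈ SS H S0, ψ (-x) = ∑ x ∈ SS H S0, ψ x :=
      sum_bij (fun x _ => -x) sy (fun a _ b _ h => neg_injective h)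
        (fun b hb => ⟨-b, sy b hb, neg_neg b⟩) fun _ _ => rfl
    rw [← e1]
    refine char_bound S0 hχ ?_ ?_ ψ hψ
    · linarith
    · change s / 2 * _ + 1 ≤ 3 / 5 * σ
      linarith
  · have a1 := (small (H := H) S0 T 0).trans hsm
    have a2 := lower (H := H) S0 (θ := 0) le_rfl zero_le_one σ0 t T ht 0
    have a3 := half_ge (fun y => (W 0 (SS H S0) ^ t) 0 y - 1 / (Fintype.card (G × H) : ℝ))
      (by
        have := row_pow (W_row S0 0 σ0.ne') t (0 : G × H)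
        rw [sum_sub_distrib, this, unif, one_pow, sub_self])
      (open Pointwise in fun y => y.1 - (0 : G × H).1 ∈ T • insert 0 S0)
    rw [sum_sub_distrib] at a3
    have b6 : 1 / σ * (g - 1) ≤ 1 / σ * g := by gcongr; linarith
    have a4 : (1 - 1 / (9 * L : ℝ)) ^ t ≤ (1 - (1 - 0) / σ * (g - 1)) ^ t := by
      rw [sub_zero]; gcongr <;> linarith
    linarith
  · refine (upper S0 le_rfl zero_le_one σ0 t 0).trans ?_
    have b4 : 0 ≤ 1 / σ * (g - 1 - s) := mul_nonneg hk (by linarith)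
    have b5 : 1 / σ * (g - 1 - s) ≤ 1 / σ * g := by gcongr; linarith
    have b6 : 1 / σ * (g - 2) ≤ 1 / σ * g := by gcongr; linarith
    rw [sub_zero, zero_add, abs_of_nonneg b4]
    gcongr <;> linarith

lemma Nice.map {Γ Δ : Type} [AddCommGroup Γ] [Fintype Γ] [DecidableEq Γ] [AddCommGroup Δ]
    [Fintype Δ] [DecidableEq Δ] {L T : ℕ} {S : Finset Γ} (h : Nice L T S) (e : Γ ≃+ Δ) :
    Nice L T (S.map e.toEquiv.toEmbedding) := by
  have hc : Fintype.card Δ = Fintype.card Γ := (Fintype.card_congr e.toEquiv).symm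
  have hm : ∀ x, e x ∈ S.map e.toEquiv.toEmbedding ↔ x ∈ S := fun x => by simp
  have hW : ∀ t y, (W 0 (S.map e.toEquiv.toEmbedding) ^ t) 0 (e y) = (W 0 S ^ t) 0 y := by
    intro t
    induction t with
    | zero => intro y; simp [one_apply, eq_comm (a := (0 : Δ)), eq_comm (a := (0 : Γ))]
    | succ t ih =>
      intro y
      rw [pow_succ, pow_succ, mul_apply, mul_apply, ← e.toEquiv.sum_comp]
      refine sum_congr rfl fun z _ => ?_
      change (W 0 (S.map e.toEquiv.toEmbedding) ^ t) 0 (e z) *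
        W 0 (S.map e.toEquiv.toEmbedding) (e z) (e y) = _
      rw [ih]
      simp only [W, ← map_sub, hm, card_map, ite_self]
  have hs : ∀ t, ∑ y, |(W 0 (S.map e.toEquiv.toEmbedding) ^ t) 0 y - 1 / (Fintype.card Δ : ℝ)| =
      ∑ y, |(W 0 S ^ t) 0 y - 1 / (Fintype.card Γ : ℝ)| := fun t => by
    rw [← e.toEquiv.sum_comp, hc]
    exact sum_congr rfl fun y _ => by rw [← hW]; rfl
  refine ⟨hc ▸ h.card, ?_, h.ne.map, fun χ hχ => ?_, fun t ht => ?_, fun t => ?_⟩
  · intro x hx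
    obtain ⟨y, rfl⟩ := e.surjective x
    rw [← map_neg, hm]
    exact h.symm _ ((hm _).1 hx)
  · rw [sum_map, card_map]
    refine h.chr (χ.compAddMonoidHom e.toAddMonoidHom) fun h0 => hχ ?_
    ext x
    obtain ⟨y, rfl⟩ := e.surjective x
    exact DFunLike.congr_fun h0 y
  · rw [hs]; exact h.lo t ht
  · rw [hs]; exact h.up t

lemma big (L T : ℕ) (hL : 2 ≤ L) : ∃ r : ℕ, 1 ≤ r ∧
    2 * (10 * L * r * (100 * (10 * L * r + 1) ^ T) + 1 : ℝ) ≤ (26 / 25) ^ (5 * L * r) := by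
  have h1 := tendsto_pow_const_div_const_pow_of_one_lt (T + 1) (show (1 : ℝ) < 26 / 25 by norm_num)
  have h2 : Tendsto (fun r : ℕ => 5 * L * r) atTop atTop :=
    tendsto_atTop_mono (fun r => by change r ≤ 5 * L * r; nlinarith) tendsto_id
  have h3 := (h1.comp h2).eventually_le_const
    (show (0 : ℝ) < 1 / (402 * 3 ^ T) by positivity)
  obtain ⟨r, h4, h5⟩ := (h3.and (eventually_ge_atTop 1)).exists
  refine ⟨r, h5, ?_⟩
  simp only [Function.comp] at h4
  rw [div_le_div_iff₀ (by positivity) (by positivity), one_mul] at h4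
  refine le_trans ?_ h4
  have hi : (1 : ℝ) ≤ ((5 * L * r : ℕ) : ℝ) := by
    have : 1 ≤ 5 * L * r := by nlinarith
    exact_mod_cast this
  have e : (10 * L * r : ℝ) = 2 * ((5 * L * r : ℕ) : ℝ) := by push_cast; ring
  rw [e]
  generalize ((5 * L * r : ℕ) : ℝ) = i at *
  have a1 : (2 * i + 1) ^ T ≤ (3 * i) ^ T := by gcongr; linarith
  have a2 : (1 : ℝ) ≤ (3 * i) ^ T := one_le_pow₀ (by linarith)
  rw [show i ^ (T + 1) * (402 * 3 ^ T) = 402 * i * (3 * i) ^ T by ring]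
  nlinarith

theorem pack (L T : ℕ) (hL : 2 ≤ L) (hT : 1 ≤ T) :
    ∃ (n : ℕ) (_ : NeZero n) (S : Finset (ZMod n)), Nice L T S := by
  obtain ⟨r, hr, hb⟩ := big L T hL
  set q := 100 * (10 * L * r + 1) ^ T with hq
  have q1 : 100 * (10 * L * r + 1) ≤ q := Nat.mul_le_mul_left _ (Nat.le_self_pow (by omega) _)
  have s1 : 1 ≤ 10 * L * r := by nlinarith
  have gq : q ≤ 10 * L * r * q + 1 := by nlinarith
  have : NeZero (10 * L * q) := ⟨by positivity⟩
  have cop : (10 * L * r * q + 1).Coprime (10 * L * q) := by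
    rw [show 10 * L * r * q + 1 = 1 + 10 * L * q * r by ring, Nat.coprime_add_mul_left_left]
    exact Nat.coprime_one_left _
  have hodd : ∀ x : ZMod (10 * L * r * q + 1), x + x = 0 → x = 0 := by
    intro x hx
    have h0 : ((10 * L * r * q + 1 : ℕ) : ZMod (10 * L * r * q + 1)) = 0 := ZMod.natCast_self _
    push_cast at h0
    linear_combination x * h0 - (5 * L * r * q) * hx
  have gq' : (q : ℝ) ≤ 10 * L * r * q + 1 := by exact_mod_cast gq
  have q1' : (100 * (10 * L * r + 1) : ℝ) ≤ q := by exact_mod_cast q1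
  have s1' : (1 : ℝ) ≤ 10 * L * r := by exact_mod_cast s1
  obtain ⟨S0, h1, h2, h3⟩ := bias hodd (5 * L * r) (by rw [ZMod.card]; push_cast; linarith)
    (by rw [ZMod.card]; push_cast [hq]; exact hb)
  have hn := nice_abs (H := ZMod (10 * L * q)) S0 L T hL h1 h3
    (by rw [ZMod.card]; push_cast; linarith) (by rw [ZMod.card]; nlinarith)
    (by rw [ZMod.card, h2]; push_cast; linarith)
    (by
      rw [ZMod.card, h2, div_le_iff₀ (by positivity)]
      have : (q : ℝ) = 100 * (10 * L * r + 1) ^ T := by rw [hq]; push_cast; ring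
      push_cast
      rw [show (2 * (5 * L * r) + 1 : ℝ) = 10 * L * r + 1 by ring]
      linarith)
    (by rw [ZMod.card, ZMod.card, h2]; push_cast; ring)
  exact ⟨_, inferInstance, _, hn.map (ZMod.chineseRemainder cop).symm.toAddEquiv⟩

lemma Nice.erg {Γ : Type} [AddCommGroup Γ] [Fintype Γ] [DecidableEq Γ] {L T : ℕ} {S : Finset Γ}
    (h : Nice L T S) (K : AddSubgroup Γ) (a : Γ) (hK : ∀ x ∈ S, x - a ∈ K) : K = ⊤ := by
  by_contra hn
  obtain ⟨b, hb⟩ : ∃ b, b ∉ K := by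
    by_contra hc
    push Not at hc
    exact hn ((AddSubgroup.eq_top_iff' K).2 hc)
  obtain ⟨ψ, hψ⟩ := (AddChar.exists_apply_ne_zero (α := Γ ⧸ K) (a := (b : Γ ⧸ K))).2
    (by rwa [Ne, QuotientAddGroup.eq_zero_iff])
  have := h.chr (ψ.compAddMonoidHom (QuotientAddGroup.mk' K)) fun h0 => hψ (DFunLike.congr_fun h0 b)
  have e : ∀ x ∈ S, (ψ.compAddMonoidHom (QuotientAddGroup.mk' K)) x = ψ (a : Γ ⧸ K) := by
    intro x hx
    change ψ (x : Γ ⧸ K) = _
    congr 1
    rw [QuotientAddGroup.eq_iff_sub_mem]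
    exact hK x hx
  rw [sum_congr rfl e, sum_const, nsmul_eq_mul, norm_mul, AddChar.norm_apply, Complex.norm_natCast]
    at this
  have : (0 : ℝ) < S.card := by exact_mod_cast h.ne.card_pos
  linarith

lemma half {d : ℕ → ℝ} {M : ℕ} {b : ℝ} (hM : 2 ≤ M) (hb0 : 0 ≤ b) (hb : b ≤ 5 / 9)
    (lo : ∀ t ≤ 6 * M, (1 - 1 / (9 * M : ℝ)) ^ t - 1 / 100 ≤ d t)
    (up : ∀ t, d t ≤ (1 - 1 / (11 * M : ℝ)) ^ t + b ^ t) : 4 * M ≤ sInf {t | d t ≤ 1 / 2} := by
  have hM' : (2 : ℝ) ≤ M := by exact_mod_cast hM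
  have c1 : 1 / (11 * M : ℝ) ≤ 1 := by rw [div_le_one (by positivity)]; linarith
  have c0 : 0 < 1 / (11 * M : ℝ) := by positivity
  have ne : {t | d t ≤ 1 / 2}.Nonempty := by
    have h1 := tendsto_pow_atTop_nhds_zero_of_lt_one (r := 1 - 1 / (11 * M : ℝ)) (by linarith)
      (by linarith)
    have h2 := tendsto_pow_atTop_nhds_zero_of_lt_one hb0 (by linarith)
    have h3 := (h1.add h2).eventually_le_const (show (0 : ℝ) + 0 < 1 / 2 by norm_num)
    obtain ⟨t, ht⟩ := h3.exists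
    exact ⟨t, (up t).trans ht⟩
  by_contra hc
  have h1 : d _ ≤ 1 / 2 := Nat.sInf_mem ne
  set t := sInf {t | d t ≤ 1 / 2}
  have h2 := lo t (by omega)
  have h3 := one_add_mul_le_pow (a := -(1 / (9 * M : ℝ)))
    (by have : 1 / (9 * M : ℝ) ≤ 1 := by rw [div_le_one (by positivity)]; linarith
        linarith) t
  have h4 : (t : ℝ) ≤ 4 * M := by exact_mod_cast (by omega : t ≤ 4 * M)
  have h5 : (t : ℝ) * (1 / (9 * M)) ≤ 4 / 9 := by
    rw [mul_one_div, div_le_iff₀ (by positivity)]; linarith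
  rw [← sub_eq_add_neg] at h3
  linarith

end Pool.Agent.H.MP_ee50b4_pr
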